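import Pool.Agent.LCI.Stmts

/-!
# Squad LCI, row EUD: Euler derivations
-/

namespace Pool.Agent.LCI.H36

open Pool.Agent.LCI
open scoped BigOperators

section
variable {k R K : Type} [Field k] [CommRing R] [IsDomain R] [Algebra k R] [Field K]
  [Algebra k K] [Algebra R K] [IsScalarTower k R K]

/-- The weight `lam . u`. -/
def wt {r : ℕ} (lam u : Fin r → ℤ) : ℤ := ∑ i, lam i * u i

theorem wt_add {r : ℕ} (lam u v : Fin r → ℤ) : wt lam (u + v) = wt lam u + wt lam v := by
  simp [wt, mul_add, Finset.sum_add_distrib]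

theorem wt_zero {r : ℕ} (lam : Fin r → ℤ) : wt lam 0 = 0 := by
  simp [wt]

/-- The Euler map `R → K`, `f ↦ (lam . u) f` on `R_u`. -/
noncomputable def euler {r : ℕ} (𝒜 : (Fin r → ℤ) → Submodule k R) [GradedAlgebra 𝒜]
    (lam : Fin r → ℤ) : R →+ K :=
  (DirectSum.toAddMonoid (fun u : Fin r → ℤ =>
    ((AddMonoidHom.mulLeft ((wt lam u : ℤ) : K)).comp
      ((algebraMap R K).toAddMonoidHom.comp (𝒜 u).subtype.toAddMonoidHom)))).comp
    (DirectSum.decomposeAddEquiv 𝒜).toAddMonoidHom

theorem euler_of {r : ℕ} (𝒜 : (Fin r → ℤ) → Submodule k R) [GradedAlgebra 𝒜]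
    (lam : Fin r → ℤ) (u : Fin r → ℤ) (f : R) (hf : f ∈ 𝒜 u) :
    euler (K := K) 𝒜 lam f = ((wt lam u : ℤ) : K) * algebraMap R K f := by
  have h : DirectSum.decompose 𝒜 f = DirectSum.of (fun i => 𝒜 i) u ⟨f, hf⟩ :=
    DirectSum.decompose_of_mem 𝒜 hf
  unfold euler
  rw [AddMonoidHom.comp_apply]
  have h2 : (DirectSum.decomposeAddEquiv 𝒜).toAddMonoidHom f =
      DirectSum.of (fun i => 𝒜 i) u ⟨f, hf⟩ := h
  rw [h2, DirectSum.toAddMonoid_of]
  rfl

theorem euler_mul {r : ℕ} (𝒜 : (Fin r → ℤ) → Submodule k R) [GradedAlgebra 𝒜]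
    (lam : Fin r → ℤ) (a b : R) :
    euler (K := K) 𝒜 lam (a * b) = algebraMap R K a * euler 𝒜 lam b +
      algebraMap R K b * euler 𝒜 lam a := by
  induction a using DirectSum.Decomposition.inductionOn 𝒜 with
  | zero => simp
  | add a a' ha ha' =>
    rw [add_mul, map_add, ha, ha', map_add, map_add]
    ring
  | @homogeneous u a =>
    induction b using DirectSum.Decomposition.inductionOn 𝒜 with
    | zero => simp
    | add b b' hb hb' =>
      rw [mul_add, map_add, hb, hb', map_add, map_add]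
      ring
    | @homogeneous w b =>
      rw [euler_of 𝒜 lam u a a.2, euler_of 𝒜 lam w b b.2,
        euler_of 𝒜 lam (u + w) _ (SetLike.mul_mem_graded a.2 b.2), wt_add, map_mul]
      push_cast
      ring

end

theorem eud (unq : UnqStmt) : EudStmt := by
  intro k R K _ _ _ _ _ _ _ _ _ _ n F g m a r 𝒜 _ lam hT
  choose y u hy hxy using hT.coord
  obtain ⟨D, hD⟩ : ∃ D : Derivation k K K, D = ∑ i, (((wt lam (u i) : ℤ) : K) * F.x i) • F.d i :=
    ⟨_, rfl⟩
  have hDf : ∀ f : K, D f = ∑ i, (((wt lam (u i) : ℤ) : K) * F.x i) * F.d i f := by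
    intro f
    have key : ∀ s : Finset (Fin n),
        (∑ i ∈ s, (((wt lam (u i) : ℤ) : K) * F.x i) • F.d i : Derivation k K K) f =
          ∑ i ∈ s, (((wt lam (u i) : ℤ) : K) * F.x i) * F.d i f := by
      classical
      intro s
      induction s using Finset.induction_on with
      | empty => simp
      | insert b s hb ih =>
        rw [Finset.sum_insert hb, Finset.sum_insert hb, Derivation.add_apply, ih,
          Derivation.smul_apply, smul_eq_mul]
    rw [hD]
    exact key _
  have hinj : Function.Injective (algebraMap R K) := IsFractionRing.injective R K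
  obtain ⟨δ, hδ⟩ : ∃ δ : R →+ K, ∀ f : R, δ f = D (algebraMap R K f) - euler 𝒜 lam f :=
    ⟨{ toFun := fun f => D (algebraMap R K f) - euler 𝒜 lam f
       map_zero' := by simp
       map_add' := by
        intro a b
        simp only [map_add]
        ring }, fun _ => rfl⟩
  have h0 : (∀ a b, δ (a * b) = algebraMap R K a * δ b + algebraMap R K b * δ a) →
      (∀ c : k, δ (algebraMap k R c) = 0) → (∀ i, δ (y i) = 0) →
      (∀ f : R, IsAlgebraic (Algebra.adjoin k (Set.range y)) f) → ∀ f, δ f = 0 :=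
    unq k R K (algebraMap R K) δ n y hinj
  have h0 := h0 ?_ ?_ ?_ ?_
  · refine ⟨D, fun w f hf => ?_⟩
    have h1 := h0 f
    rw [hδ, euler_of 𝒜 lam w f hf, sub_eq_zero] at h1
    exact h1
  · intro a b
    rw [hδ, hδ, hδ, euler_mul, map_mul, Derivation.leibniz, smul_eq_mul, smul_eq_mul]
    ring
  · intro c
    rw [hδ, euler_of 𝒜 lam 0 _ (SetLike.algebraMap_mem_graded 𝒜 c), wt_zero,
      ← IsScalarTower.algebraMap_apply k R K, Derivation.map_algebraMap]
    simp
  · intro i
    rw [hδ, euler_of 𝒜 lam (u i) _ (hy i), ← hxy, hDf]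
    have h1 : ∀ j, (((wt lam (u j) : ℤ) : K) * F.x j) * F.d j (F.x i) =
        if j = i then ((wt lam (u j) : ℤ) : K) * F.x j else 0 := by
      intro j
      rw [F.dual]
      split_ifs <;> simp
    rw [Finset.sum_congr rfl (fun j _ => h1 j)]
    simp
  · intro f
    have hmem : ∀ z : Algebra.adjoin k (Set.range y),
        algebraMap R K z ∈ Algebra.adjoin k (Set.range F.x) := by
      intro z
      have h1 : (Algebra.adjoin k (Set.range y)).map (IsScalarTower.toAlgHom k R K) =
          Algebra.adjoin k (Set.range F.x) := by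
        rw [AlgHom.map_adjoin]
        congr 1
        ext t
        constructor
        · rintro ⟨_, ⟨i, rfl⟩, rfl⟩
          exact ⟨i, hxy i⟩
        · rintro ⟨i, rfl⟩
          exact ⟨y i, ⟨i, rfl⟩, (hxy i).symm⟩
      rw [← h1]
      exact ⟨z, z.2, rfl⟩
    have hsur : ∀ z ∈ Algebra.adjoin k (Set.range F.x),
        ∃ t ∈ Algebra.adjoin k (Set.range y), algebraMap R K t = z := by
      intro z hz
      have h1 : (Algebra.adjoin k (Set.range y)).map (IsScalarTower.toAlgHom k R K) =
          Algebra.adjoin k (Set.range F.x) := by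
        rw [AlgHom.map_adjoin]
        congr 1
        ext t
        constructor
        · rintro ⟨_, ⟨i, rfl⟩, rfl⟩
          exact ⟨i, hxy i⟩
        · rintro ⟨i, rfl⟩
          exact ⟨y i, ⟨i, rfl⟩, (hxy i).symm⟩
      rw [← h1] at hz
      obtain ⟨t, ht, rfl⟩ := hz
      exact ⟨t, ht, rfl⟩
    obtain ⟨ψ, hψ⟩ : ∃ ψ : Algebra.adjoin k (Set.range y) →+* Algebra.adjoin k (Set.range F.x),
        ∀ z, ((ψ z : Algebra.adjoin k (Set.range F.x)) : K) = algebraMap R K z :=
      ⟨((algebraMap R K).comp (Algebra.adjoin k (Set.range y)).val.toRingHom).codRestrict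
        (Algebra.adjoin k (Set.range F.x)) hmem, fun z => rfl⟩
    have halg : IsAlgebraic (Algebra.adjoin k (Set.range F.x)) (algebraMap R K f) :=
      F.alg.isAlgebraic (algebraMap R K f)
    refine IsAlgebraic.of_ringHom_of_comp_eq ψ (algebraMap R K) halg ?_ hinj ?_
    · intro z
      obtain ⟨t, ht, htz⟩ := hsur z z.2
      refine ⟨⟨t, ht⟩, Subtype.ext ?_⟩
      rw [hψ]
      exact htz
    · ext z
      exact hψ z

end Pool.Agent.LCI.H36
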